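import Pool.Agent.Helper14_DK.Stmts

/-! # ABS: the abstract duality lemma -/

set_option autoImplicit false

namespace Pool.Agent.DK.H21

open Complex

theorem abs : AbsStmt := by
  intro H H1 A _ _ _ _ _ _ _ _ a T N g C hC hg h
  have key : ∀ x : A, ‖inner ℂ g (a x)‖ ≤ C * ‖g‖ * ‖T x‖ := by
    intro x
    obtain ⟨f, hf, f', hf', he⟩ := (Nᗮ).exists_add_mem_mem_orthogonal (a x)
    have h1 : a x - f ∈ Nᗮᗮ := by
      have : a x - f = f' := by rw [he]; abel
      rw [this]
      exact hf'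
    have h2 := h x f hf h1
    have h3 : inner ℂ g (a x) = inner ℂ g f := by
      rw [he, inner_add_right, Submodule.inner_right_of_mem_orthogonal hg hf', add_zero]
    rw [h3]
    calc ‖inner ℂ g f‖ ≤ ‖g‖ * ‖f‖ := norm_inner_le_norm g f
      _ ≤ ‖g‖ * (C * ‖T x‖) := mul_le_mul_of_nonneg_left h2 (norm_nonneg g)
      _ = C * ‖g‖ * ‖T x‖ := by ring
  let ps : A →ₗ[ℂ] ℂ := (innerSL ℂ g).toLinearMap ∘ₗ a
  have hps : ∀ x, ps x = inner ℂ g (a x) := fun x => rfl
  obtain ⟨s, hs⟩ := T.rangeRestrict.exists_rightInverse_of_surjective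
    (LinearMap.range_eq_top.2 T.surjective_rangeRestrict)
  have hs' : ∀ y : LinearMap.range T, T (s y) = (y : H1) := by
    intro y
    have := congrArg (fun l => ((l y : LinearMap.range T) : H1)) hs
    simpa using this
  let f0 : LinearMap.range T →ₗ[ℂ] ℂ := ps ∘ₗ s
  have hb : ∀ y : LinearMap.range T, ‖f0 y‖ ≤ C * ‖g‖ * ‖y‖ := by
    intro y
    have := key (s y)
    rw [hs' y] at this
    exact this
  obtain ⟨F, hF, hFn⟩ := exists_extension_norm_eq (LinearMap.range T) (f0.mkContinuous _ hb)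
  refine ⟨(InnerProductSpace.toDual ℂ H1).symm F, ?_, fun x => ?_⟩
  · rw [LinearIsometryEquiv.norm_map, hFn]
    exact LinearMap.mkContinuous_norm_le _ (mul_nonneg hC (norm_nonneg g)) hb
  · have h1 : inner ℂ ((InnerProductSpace.toDual ℂ H1).symm F) (T x) = F (T x) :=
      InnerProductSpace.toDual_symm_apply
    have h2 : F (T x) = f0 ⟨T x, LinearMap.mem_range_self T x⟩ :=
      hF ⟨T x, LinearMap.mem_range_self T x⟩
    have h3 : f0 ⟨T x, LinearMap.mem_range_self T x⟩ = ps x := by
      have h4 : T (s ⟨T x, LinearMap.mem_range_self T x⟩ - x) = 0 := by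
        rw [map_sub, hs', sub_self]
      have h5 := key (s ⟨T x, LinearMap.mem_range_self T x⟩ - x)
      rw [h4, norm_zero, mul_zero, map_sub, inner_sub_right] at h5
      have h6 := norm_le_zero_iff.1 h5
      exact sub_eq_zero.1 h6
    rw [← inner_conj_symm, h1, h2, h3, hps, inner_conj_symm]

end Pool.Agent.DK.H21
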