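import Pool.Agent.Helper14_DK.Stmts

/-! # EPS: the a priori estimate for compactly supported weak forms -/

set_option autoImplicit false

namespace Pool.Agent.DK.H21

open MeasureTheory Complex Set Metric Filter
open scoped ContDiff Topology

/-! ### convergence in `L²(S)` -/

/-- convergence in `L²(S)` -/
structure Cv {n : ℕ} (S : Set (E n)) (f : ℕ → E n → ℂ) (g : E n → ℂ) : Prop where
  memf : ∀ m, MemLp (f m) 2 (volume.restrict S)
  memg : MemLp g 2 (volume.restrict S)
  lim : Tendsto (fun m => ∫ z in S, ‖f m z - g z‖ ^ 2) atTop (𝓝 0)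

theorem int_sq {n : ℕ} {S : Set (E n)} {f : E n → ℂ} (hf : MemLp f 2 (volume.restrict S)) :
    Integrable (fun z => ‖f z‖ ^ 2) (volume.restrict S) := by
  have := hf.integrable_norm_pow (by norm_num)
  simpa using this

theorem Cv.sub {n : ℕ} {S : Set (E n)} {f f' : ℕ → E n → ℂ} {g g' : E n → ℂ}
    (h : Cv S f g) (h' : Cv S f' g') :
    Cv S (fun m z => f m z - f' m z) (fun z => g z - g' z) := by
  refine ⟨fun m => (h.memf m).sub (h'.memf m), h.memg.sub h'.memg, ?_⟩
  have hl : Tendsto (fun m => 2 * (∫ z in S, ‖f m z - g z‖ ^ 2) +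
      2 * (∫ z in S, ‖f' m z - g' z‖ ^ 2)) atTop (𝓝 0) := by
    have := (h.lim.const_mul 2).add (h'.lim.const_mul 2)
    simpa using this
  refine squeeze_zero (fun m => integral_nonneg fun z => by positivity) (fun m => ?_) hl
  have i1 : Integrable (fun z => ‖f m z - g z‖ ^ 2) (volume.restrict S) :=
    int_sq ((h.memf m).sub h.memg)
  have i2 : Integrable (fun z => ‖f' m z - g' z‖ ^ 2) (volume.restrict S) :=
    int_sq ((h'.memf m).sub h'.memg)
  have i3 : Integrable (fun z => ‖f m z - f' m z - (g z - g' z)‖ ^ 2) (volume.restrict S) :=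
    int_sq (((h.memf m).sub (h'.memf m)).sub (h.memg.sub h'.memg))
  rw [← integral_const_mul, ← integral_const_mul, ← integral_add (i1.const_mul 2) (i2.const_mul 2)]
  refine integral_mono i3 ((i1.const_mul 2).add (i2.const_mul 2)) fun z => ?_
  beta_reduce
  have e : f m z - f' m z - (g z - g' z) = (f m z - g z) - (f' m z - g' z) := by ring
  rw [e]
  have h1 := norm_sub_le (f m z - g z) (f' m z - g' z)
  nlinarith [norm_nonneg (f m z - g z), norm_nonneg (f' m z - g' z),
    norm_nonneg ((f m z - g z) - (f' m z - g' z)),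
    sq_nonneg (‖f m z - g z‖ - ‖f' m z - g' z‖)]

theorem Cv.zero {n : ℕ} (S : Set (E n)) : Cv S (fun _ _ => 0) (fun _ => 0) := by
  refine ⟨fun _ => MemLp.zero', MemLp.zero', ?_⟩
  simp

theorem Cv.mul {n : ℕ} {S : Set (E n)} {f : ℕ → E n → ℂ} {g : E n → ℂ} (h : Cv S f g)
    (hS : MeasurableSet S) {c : E n → ℂ} (hc : AEStronglyMeasurable c (volume.restrict S)) {C : ℝ}
    (hC : ∀ z ∈ S, ‖c z‖ ≤ C) : Cv S (fun m z => c z * f m z) (fun z => c z * g z) := by
  have hle : ∀ u : E n → ℂ, ∀ᵐ z ∂(volume.restrict S), ‖c z * u z‖ ≤ C * ‖u z‖ := by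
    intro u
    filter_upwards [ae_restrict_mem hS] with z hz
    rw [norm_mul]
    exact mul_le_mul_of_nonneg_right (hC z hz) (norm_nonneg _)
  refine ⟨fun m => (h.memf m).of_le_mul (hc.mul (h.memf m).1) (hle _),
    h.memg.of_le_mul (hc.mul h.memg.1) (hle _), ?_⟩
  have hl : Tendsto (fun m => C ^ 2 * (∫ z in S, ‖f m z - g z‖ ^ 2)) atTop (𝓝 0) := by
    have := h.lim.const_mul (C ^ 2)
    simpa using this
  refine squeeze_zero (fun m => integral_nonneg fun z => by positivity) (fun m => ?_) hl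
  have i1 : Integrable (fun z => ‖f m z - g z‖ ^ 2) (volume.restrict S) :=
    int_sq ((h.memf m).sub h.memg)
  rw [← integral_const_mul]
  refine integral_mono_of_nonneg (Eventually.of_forall fun z => by positivity)
    (i1.const_mul _) ?_
  filter_upwards [ae_restrict_mem hS] with z hz
  have h1 := hC z hz
  have e : c z * f m z - c z * g z = c z * (f m z - g z) := by ring
  rw [e, norm_mul, mul_pow]
  exact mul_le_mul_of_nonneg_right (pow_le_pow_left₀ (norm_nonneg _) h1 2) (by positivity)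

theorem Cv.neg_sum {n : ℕ} {S : Set (E n)} {ι : Type} (s : Finset ι) {f : ι → ℕ → E n → ℂ}
    {g : ι → E n → ℂ} (h : ∀ i, Cv S (f i) (g i)) {f0 : ℕ → E n → ℂ} {g0 : E n → ℂ}
    (h0 : Cv S f0 g0) :
    Cv S (fun m z => f0 m z - ∑ i ∈ s, f i m z) (fun z => g0 z - ∑ i ∈ s, g i z) := by
  classical
  induction s using Finset.induction_on with
  | empty => simpa using h0
  | insert a s ha ih =>
    have := ih.sub (h a)
    have e1 : (fun m z => f0 m z - ∑ i ∈ insert a s, f i m z) =
        fun m z => f0 m z - ∑ i ∈ s, f i m z - f a m z := by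
      funext m z
      rw [Finset.sum_insert ha]
      ring
    have e2 : (fun z => g0 z - ∑ i ∈ insert a s, g i z) =
        fun z => g0 z - ∑ i ∈ s, g i z - g a z := by
      funext z
      rw [Finset.sum_insert ha]
      ring
    rw [e1, e2]
    exact this

theorem Cv.tend {n : ℕ} {S : Set (E n)} {f : ℕ → E n → ℂ} {g : E n → ℂ} (h : Cv S f g)
    (hS : MeasurableSet S) {W : E n → ℝ} (hW : AEStronglyMeasurable W (volume.restrict S)) {C : ℝ}
    (hC : ∀ z ∈ S, |W z| ≤ C) :
    Tendsto (fun m => ∫ z in S, ‖f m z‖ ^ 2 * W z) atTop (𝓝 (∫ z in S, ‖g z‖ ^ 2 * W z)) := by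
  have hI : ∀ u : E n → ℂ, MemLp u 2 (volume.restrict S) →
      Integrable (fun z => ‖u z‖ ^ 2 * W z) (volume.restrict S) := by
    intro u hu
    refine (int_sq hu).mul_bdd (c := C) hW ?_
    filter_upwards [ae_restrict_mem hS] with z hz
    simpa using hC z hz
  set F := ∫ z in S, ‖g z‖ ^ 2 with hF
  have hF0 : 0 ≤ F := integral_nonneg fun z => by positivity
  rcases S.eq_empty_or_nonempty with hSe | ⟨z0, hz0⟩
  · subst hSe
    simp
  have hC0 : 0 ≤ C := (abs_nonneg _).trans (hC z0 hz0)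
  have main : ∀ (e : ℝ), 0 < e → ∀ m, |(∫ z in S, ‖f m z‖ ^ 2 * W z) - ∫ z in S, ‖g z‖ ^ 2 * W z| ≤
      C * ((1 + 1 / e) * (∫ z in S, ‖f m z - g z‖ ^ 2) + e * F) := by
    intro e he m
    have i1 : Integrable (fun z => ‖f m z - g z‖ ^ 2) (volume.restrict S) :=
      int_sq ((h.memf m).sub h.memg)
    have i2 := int_sq h.memg
    rw [← integral_sub (hI _ (h.memf m)) (hI _ h.memg), hF, ← integral_const_mul, ← integral_const_mul,
      ← integral_add (i1.const_mul _) (i2.const_mul _), ← integral_const_mul]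
    refine (abs_integral_le_integral_abs).trans ?_
    refine integral_mono_of_nonneg (Eventually.of_forall fun z => abs_nonneg _)
      (((i1.const_mul _).add (i2.const_mul _)).const_mul C) ?_
    filter_upwards [ae_restrict_mem hS] with z hz
    have h1 := hC z hz
    have e1 : ‖f m z‖ ^ 2 * W z - ‖g z‖ ^ 2 * W z = W z * (‖f m z‖ ^ 2 - ‖g z‖ ^ 2) := by ring
    rw [e1, abs_mul]
    refine mul_le_mul h1 ?_ (abs_nonneg _) hC0
    have h2 : |‖f m z‖ - ‖g z‖| ≤ ‖f m z - g z‖ := abs_norm_sub_norm_le _ _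
    set x := ‖f m z‖
    set y := ‖g z‖ with hy
    set w := ‖f m z - g z‖
    have hy0 : 0 ≤ y := norm_nonneg _
    have hw0 : 0 ≤ w := norm_nonneg _
    have h3 : |x ^ 2 - y ^ 2| ≤ w * (w + 2 * y) := by
      have e2 : x ^ 2 - y ^ 2 = (x - y) * (x + y) := by ring
      rw [e2, abs_mul]
      refine mul_le_mul h2 ?_ (abs_nonneg _) hw0
      have h4 := abs_le.1 h2
      have hx0 : 0 ≤ x := norm_nonneg _
      rw [abs_of_nonneg (by linarith)]
      linarith [h4.2]
    have h5 : 2 * w * y ≤ (1 / e) * w ^ 2 + e * y ^ 2 := by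
      have h6 : 0 ≤ (1 / e) * (w - e * y) ^ 2 := by positivity
      have h7 : (1 / e) * (w - e * y) ^ 2 = (1 / e) * w ^ 2 - 2 * w * y + e * y ^ 2 := by
        field_simp
        ring
      linarith
    nlinarith
  rw [Metric.tendsto_atTop]
  intro η hη
  -- choose e
  set e := η / (2 * (C * F + 1)) with he
  have hCF : 0 ≤ C * F := mul_nonneg hC0 hF0
  have he0 : 0 < e := by positivity
  have hlim := h.lim.const_mul (C * (1 + 1 / e))
  rw [mul_zero] at hlim
  obtain ⟨N, hN⟩ := (Metric.tendsto_atTop.1 hlim) (η / 2) (by positivity)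
  refine ⟨N, fun m hm => ?_⟩
  have h1 := hN m hm
  rw [Real.dist_eq, sub_zero] at h1
  have h2 := main e he0 m
  rw [Real.dist_eq]
  have h3 : C * (e * F) < η / 2 := by
    have : C * (e * F) = η / 2 * ((C * F) / (C * F + 1)) := by
      rw [he]
      field_simp
    rw [this]
    have h4 : (C * F) / (C * F + 1) < 1 := by
      rw [div_lt_one (by linarith)]
      linarith
    nlinarith
  have h4 := le_abs_self (C * (1 + 1 / e) * ∫ z in S, ‖f m z - g z‖ ^ 2)
  nlinarith

theorem Cv.tend_sum {n : ℕ} {S : Set (E n)} {ι : Type} [Fintype ι] {f : ι → ℕ → E n → ℂ}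
    {g : ι → E n → ℂ} (h : ∀ i, Cv S (f i) (g i))
    (hS : MeasurableSet S) {W : E n → ℝ} (hW : AEStronglyMeasurable W (volume.restrict S)) {C : ℝ}
    (hC : ∀ z ∈ S, |W z| ≤ C) :
    Tendsto (fun m => ∫ z in S, (∑ i, ‖f i m z‖ ^ 2) * W z) atTop
      (𝓝 (∫ z in S, (∑ i, ‖g i z‖ ^ 2) * W z)) := by
  have hI : ∀ u : E n → ℂ, MemLp u 2 (volume.restrict S) →
      Integrable (fun z => ‖u z‖ ^ 2 * W z) (volume.restrict S) := by
    intro u hu
    refine (int_sq hu).mul_bdd (c := C) hW ?_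
    filter_upwards [ae_restrict_mem hS] with z hz
    simpa using hC z hz
  have e1 : ∀ m, ∫ z in S, (∑ i, ‖f i m z‖ ^ 2) * W z = ∑ i, ∫ z in S, ‖f i m z‖ ^ 2 * W z := by
    intro m
    rw [← integral_finsetSum _ fun i _ => hI _ ((h i).memf m)]
    simp only [Finset.sum_mul]
  have e2 : ∫ z in S, (∑ i, ‖g i z‖ ^ 2) * W z = ∑ i, ∫ z in S, ‖g i z‖ ^ 2 * W z := by
    rw [← integral_finsetSum _ fun i _ => hI _ (h i).memg]
    simp only [Finset.sum_mul]
  simp only [e1, e2]
  exact tendsto_finsetSum _ fun i _ => (h i).tend hS hW hC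

/-! ### the smoothed forms -/

theorem test_shift {n : ℕ} {g : E n → ℂ} (hg : ContDiff ℝ ∞ g) (hgs : HasCompactSupport g)
    (z : E n) : ContDiff ℝ ∞ (fun w => g (z - w)) ∧ HasCompactSupport (fun w => g (z - w)) :=
  ⟨hg.comp (contDiff_const.sub contDiff_id), hgs.comp_homeomorph (Homeomorph.subLeft z)⟩

theorem sum_dz_conv (hC : CnvStmt) {n : ℕ} {p : Fin n → E n → ℂ} {d g : E n → ℂ}
    (hp : ∀ j, MemLp (p j) 2 volume) (hg : ContDiff ℝ ∞ g) (hgs : HasCompactSupport g)
    (hw : ∀ v : E n → ℂ, ContDiff ℝ ∞ v → HasCompactSupport v →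
      ∫ z, ∑ j, p j z * dz j v z = - ∫ z, d z * v z) (z : E n) :
    ∑ j, dz j (conv (p j) g) z = conv d g z := by
  obtain ⟨hv, hvs⟩ := test_shift hg hgs z
  have ht : IsTest univ (fun w => g (z - w)) := ⟨hv, hvs, subset_univ _⟩
  have h1 : ∀ j, dz j (conv (p j) g) z = - ∫ w, p j w * dz j (fun w => g (z - w)) w := by
    intro j
    rw [(hC n (p j) g ((hp j).locallyIntegrable (by norm_num)) hg hgs).2.2 j z, ← integral_neg]
    unfold conv
    refine integral_congr_ae (Eventually.of_forall fun w => ?_)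
    simp only
    rw [dz_comp_sub_left]
    ring
  have h2 := hw _ hv hvs
  rw [integral_finsetSum _ fun j _ => integrable_mul_test' (hp j) (ht.dz j)] at h2
  simp only [h1, Finset.sum_neg_distrib]
  rw [h2, neg_neg]
  rfl

theorem dbar_conv_sub (hC : CnvStmt) {n : ℕ} {p : Fin n → E n → ℂ} {q : Fin n → Fin n → E n → ℂ}
    {g : E n → ℂ}
    (hp : ∀ j, MemLp (p j) 2 volume) (hg : ContDiff ℝ ∞ g) (hgs : HasCompactSupport g)
    (hw : ∀ (j k : Fin n) (v : E n → ℂ), ContDiff ℝ ∞ v → HasCompactSupport v →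
      (∫ z, p j z * dbar k v z) - (∫ z, p k z * dbar j v z) = - ∫ z, q j k z * v z)
    (j k : Fin n) (z : E n) :
    dbar k (conv (p j) g) z - dbar j (conv (p k) g) z = conv (q j k) g z := by
  obtain ⟨hv, hvs⟩ := test_shift hg hgs z
  have h1 : ∀ j k, dbar k (conv (p j) g) z = - ∫ w, p j w * dbar k (fun w => g (z - w)) w := by
    intro j k
    rw [(hC n (p j) g ((hp j).locallyIntegrable (by norm_num)) hg hgs).2.1 k z, ← integral_neg]
    unfold conv
    refine integral_congr_ae (Eventually.of_forall fun w => ?_)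
    simp only
    rw [dbar_comp_sub_left]
    ring
  have h2 := hw j k _ hv hvs
  rw [h1 j k, h1 k j]
  have h3 : conv (q j k) g z = ∫ w, q j k w * g (z - w) := rfl
  rw [h3]
  linear_combination -h2

theorem conv_off {n : ℕ} {K : Set (E n)} {p g : E n → ℂ} {r s : ℝ} (hrs : r ≤ s)
    (hp : ∀ w ∉ K, p w = 0) (hg : ∀ y, r ≤ ‖y‖ → g y = 0) {z : E n} (hz : z ∉ cthickening s K) :
    conv p g z = 0 := by
  unfold conv
  have : ∀ w, p w * g (z - w) = 0 := by
    intro w
    by_cases hw : w ∈ K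
    · rw [hg, mul_zero]
      by_contra hlt
      exact hz (mem_cthickening_of_dist_le z w s K hw (by
        rw [dist_eq_norm]
        linarith))
    · rw [hp w hw, zero_mul]
  simp only [this, integral_zero]

theorem bdd_on {n : ℕ} {S : Set (E n)} (hS : IsCompact S) {c : E n → ℂ} (hc : ContinuousOn c S) :
    ∃ C, ∀ z ∈ S, ‖c z‖ ≤ C := hS.exists_bound_of_continuousOn hc

theorem eps (hA : AprStmt) (hM : MolStmt) (hC : CnvStmt) : EpsStmt := by
  intro n D Φ ψ t K p q d hD hΦ hψ hcurv hK hKD hp hq hd hp0 hq0 hd0 hwq hwd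
  obtain ⟨om, hom1, hom2, hom3, hom4, hom5⟩ := hM n
  obtain ⟨δ, hδ, hδD⟩ := hK.exists_cthickening_subset_open hD hKD
  have hS : IsCompact (cthickening δ K) := hK.cthickening
  have hSc : IsClosed (cthickening δ K) := isClosed_cthickening
  obtain ⟨m₀, hm₀⟩ : ∃ m₀ : ℕ, ∀ m : ℕ, 1 / (((m + m₀ : ℕ) : ℝ) + 1) ≤ δ := by
    obtain ⟨m₀, hm⟩ := exists_nat_gt (1 / δ)
    refine ⟨m₀, fun m => ?_⟩
    rw [div_le_iff₀ (by positivity)]
    rw [div_lt_iff₀ hδ] at hm
    have h1 : (m₀ : ℝ) ≤ ((m + m₀ : ℕ) : ℝ) := by exact_mod_cast Nat.le_add_left _ _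
    nlinarith
  set S := cthickening δ K with hSdef
  have hSm : MeasurableSet S := hSc.measurableSet
  let g : ℕ → E n → ℂ := fun m => cx (om (m + m₀))
  have hg : ∀ m, ContDiff ℝ ∞ (g m) := fun m => contDiff_cx (hom1 _)
  have hgz : ∀ m y, 1 / (((m + m₀ : ℕ) : ℝ) + 1) ≤ ‖y‖ → g m y = 0 := by
    intro m y hy
    have := hom4 (m + m₀) y hy
    simp only [g, cx, this, Complex.ofReal_zero]
  have hgs : ∀ m, HasCompactSupport (g m) := by
    intro m
    refine HasCompactSupport.intro (isCompact_closedBall (0 : E n) 1) fun y hy => hgz m y ?_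
    rw [mem_closedBall, dist_zero_right, not_le] at hy
    refine le_trans ?_ hy.le
    rw [div_le_iff₀ (by positivity)]
    have : (0 : ℝ) ≤ ((m + m₀ : ℕ) : ℝ) := by positivity
    linarith
  -- convergence
  have hcv : ∀ f : E n → ℂ, MemLp f 2 volume → Cv S (fun m => conv f (g m)) f := by
    intro f hf
    obtain ⟨h1, h2⟩ := hom5 f hf
    refine ⟨fun m => (h1 _).restrict S, hf.restrict S, ?_⟩
    have h3 : Tendsto (fun m => ∫ z, ‖conv f (g m) z - f z‖ ^ 2) atTop (𝓝 0) :=
      (tendsto_add_atTop_iff_nat (f := fun m => ∫ z, ‖conv f (cx (om m)) z - f z‖ ^ 2) m₀).2 h2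
    refine squeeze_zero (fun m => integral_nonneg fun z => by positivity) (fun m => ?_) h3
    have hi : Integrable (fun z => ‖conv f (g m) z - f z‖ ^ 2) volume := by
      have := ((h1 (m + m₀)).sub hf).integrable_norm_pow (by norm_num)
      simpa using this
    exact setIntegral_le_integral hi (Eventually.of_forall fun z => by positivity)
  -- the smoothed form is a test form
  let a : ℕ → Fin n → E n → ℂ := fun m j => conv (p j) (g m)
  have haz : ∀ m j, ∀ z ∉ S, a m j z = 0 := fun m j z hz =>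
    conv_off (hm₀ m) (hp0 j) (hgz m) hz
  have hat : ∀ m j, IsTest D (a m j) := by
    intro m j
    refine ⟨(hC n (p j) (g m) ((hp j).locallyIntegrable (by norm_num)) (hg m) (hgs m)).1,
      HasCompactSupport.intro hS (haz m j), ?_⟩
    refine (closure_minimal (fun z hz => ?_) hSc).trans hδD
    by_contra hc
    exact hz (haz m j z hc)
  have hdz : ∀ m z, z ∉ S → conv d (g m) z = 0 := fun m z hz => conv_off (hm₀ m) hd0 (hgz m) hz
  have hqz : ∀ m j k z, z ∉ S → conv (q j k) (g m) z = 0 := fun m j k z hz =>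
    conv_off (hm₀ m) (hq0 j k) (hgz m) hz
  have hKS : K ⊆ S := self_subset_cthickening K
  -- weights
  have hWc : ContinuousOn (fun z => Real.exp (-(Φ z - ψ z))) S :=
    (Real.continuous_exp.comp_continuousOn
      ((hΦ.continuousOn.sub hψ.continuousOn).neg)).mono hδD
  have hVc : ContinuousOn (fun z => Real.exp (-Φ z)) S :=
    (Real.continuous_exp.comp_continuousOn hΦ.continuousOn.neg).mono hδD
  obtain ⟨C1, hC1⟩ := hS.exists_bound_of_continuousOn hWc
  obtain ⟨C2, hC2⟩ := hS.exists_bound_of_continuousOn hVc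
  have hWm := hWc.aestronglyMeasurable (μ := volume) hSm
  have hVm := hVc.aestronglyMeasurable (μ := volume) hSm
  -- coefficients
  let c : Fin n → E n → ℂ := fun j => dz j (cx (fun y => Φ y - ψ y))
  have hcc : ∀ j, ContinuousOn (c j) S := by
    intro j z hz
    have h1 : ContDiffAt ℝ ∞ (cx (fun y => Φ y - ψ y)) z :=
      contDiffAt_cx ((hΦ.contDiffAt (hD.mem_nhds (hδD hz))).sub
        (hψ.contDiffAt (hD.mem_nhds (hδD hz))))
    have h2 : ContDiffAt ℝ ((0 : ℕ∞) : WithTop ℕ∞) (c j) z :=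
      contDiffAt_dz (m := 0) (h1.of_le (by simp))
    exact h2.continuousAt.continuousWithinAt
  have hcb : ∀ j, ∃ C, ∀ z ∈ S, ‖c j z‖ ≤ C := fun j => hS.exists_bound_of_continuousOn (hcc j)
  choose Cc hCc using hcb
  -- the inequality for the smoothed forms
  have hle : ∀ m, t * (∫ z in S, (∑ j, ‖a m j z‖ ^ 2) * Real.exp (-(Φ z - ψ z))) ≤
      2 * (∫ z in S, ‖conv d (g m) z - ∑ j, c j z * a m j z‖ ^ 2 * Real.exp (-Φ z)) +
      (1 / 2) * ∫ z in S, (∑ i : Fin n × Fin n, ‖conv (q i.1 i.2) (g m) z‖ ^ 2) *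
        Real.exp (-Φ z) := by
    intro m
    have h := hA n D Φ ψ t (a m) hD hΦ hψ hcurv (hat m)
    have e2 : ∀ z, ∑ j, (dz j (a m j) z - dz j (cx (fun y => Φ y - ψ y)) z * a m j z) =
        conv d (g m) z - ∑ j, c j z * a m j z := by
      intro z
      rw [Finset.sum_sub_distrib, sum_dz_conv hC hp (hg m) (hgs m) hwd z]
    have e3 : ∀ z, (∑ j, ∑ k, ‖dbar k (a m j) z - dbar j (a m k) z‖ ^ 2) =
        ∑ i : Fin n × Fin n, ‖conv (q i.1 i.2) (g m) z‖ ^ 2 := by
      intro z
      rw [Fintype.sum_prod_type]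
      refine Finset.sum_congr rfl fun j _ => Finset.sum_congr rfl fun k _ => ?_
      rw [dbar_conv_sub hC hp (hg m) (hgs m) hwq j k z]
    simp only [e2, e3] at h
    rw [setIntegral_eq_integral_of_forall_compl_eq_zero,
      setIntegral_eq_integral_of_forall_compl_eq_zero,
      setIntegral_eq_integral_of_forall_compl_eq_zero]
    · exact h
    · intro z hz
      simp [hqz m _ _ z hz]
    · intro z hz
      simp [hdz m z hz, haz m _ z hz]
    · intro z hz
      simp [haz m _ z hz]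
  -- limits
  have l1 := Cv.tend_sum (fun j => hcv (p j) (hp j)) hSm hWm (by simpa using hC1)
  have l3 := Cv.tend_sum (ι := Fin n × Fin n) (fun i => hcv (q i.1 i.2) (hq i.1 i.2)) hSm hVm
    (by simpa using hC2)
  have l2 := (Cv.neg_sum Finset.univ (fun j => (hcv (p j) (hp j)).mul hSm
    ((hcc j).aestronglyMeasurable (μ := volume) hSm) (hCc j)) (hcv d hd)).tend hSm hVm
      (by simpa using hC2)
  have hfin := le_of_tendsto_of_tendsto' (l1.const_mul t)
    ((l2.const_mul 2).add (l3.const_mul (1 / 2))) hle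
  rw [setIntegral_eq_integral_of_forall_compl_eq_zero,
      setIntegral_eq_integral_of_forall_compl_eq_zero,
      setIntegral_eq_integral_of_forall_compl_eq_zero] at hfin
  · simpa only [Fintype.sum_prod_type] using hfin
  · intro z hz
    simp [hq0 _ _ z (fun h => hz (hKS h))]
  · intro z hz
    simp [hd0 z (fun h => hz (hKS h)), hp0 _ z (fun h => hz (hKS h))]
  · intro z hz
    simp [hp0 _ z (fun h => hz (hKS h))]

end Pool.Agent.DK.H21
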